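import Pool.Agent.R312I.Inertia

/-!
The graph on `(Fin 7 → Fin m)` with few negative and many positive eigenvalues.
-/

namespace Pool.Agent.R312I

open Matrix Finset

/-- the terms with coefficient `-1` -/
def neg : List (List (Fin 7)) :=
  [[0], [1], [2], [3], [4], [5], [6], [0, 1, 2], [0, 1, 3], [0, 1, 4], [0, 1, 5], [0, 2, 3],
   [0, 2, 5], [0, 2, 6], [0, 3, 4], [0, 3, 5], [0, 3, 6], [0, 4, 5], [0, 4, 6], [1, 2, 3],
   [1, 2, 4], [1, 2, 5], [1, 3, 4], [1, 3, 6], [1, 4, 5], [1, 4, 6], [1, 5, 6], [2, 3, 4],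
   [2, 3, 5], [2, 4, 5], [2, 4, 6], [2, 5, 6], [3, 4, 5], [3, 5, 6]]

/-- the terms with coefficient `+1` (repeated for `+2`) -/
def pos : List (List (Fin 7)) :=
  [[], [0, 1], [0, 2], [0, 3], [0, 3], [0, 4], [0, 5], [0, 6], [1, 2], [1, 3], [1, 4], [1, 4],
   [1, 5], [1, 6], [2, 3], [2, 4], [2, 5], [2, 5], [2, 6], [3, 4], [3, 5], [3, 6], [4, 5],
   [4, 6], [5, 6], [0, 1, 2, 3], [0, 1, 2, 5], [0, 1, 4, 5], [0, 2, 4, 6], [0, 3, 4, 5],
   [1, 2, 3, 4], [1, 3, 5, 6], [2, 3, 4, 5], [0, 1, 2, 3, 4, 5, 6]]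

/-- number of terms of a list contained in the agreement set -/
def cnt (l : List (List (Fin 7))) (z : Fin 7 → Bool) : ℤ :=
  (l.map fun J => if J.all z then (1 : ℤ) else 0).sum

/-- the value of the polynomial -/
def gval (z : Fin 7 → Bool) : ℤ := cnt pos z - cnt neg z

lemma gval_bool : ∀ a b c d e f g : Bool,
    (gval ![a, b, c, d, e, f, g] = 0 ∨ gval ![a, b, c, d, e, f, g] = 1) := by
  decide +kernel

lemma gval_top : gval (fun _ => true) = 0 := by decide +kernel

lemma gval01 (z : Fin 7 → Bool) : gval z = 0 ∨ gval z = 1 := by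
  have h : z = ![z 0, z 1, z 2, z 3, z 4, z 5, z 6] := by
    funext i; fin_cases i <;> rfl
  rw [h]; exact gval_bool _ _ _ _ _ _ _

variable {m : ℕ}

/-- agreement pattern -/
def agr (x y : Fin 7 → Fin m) : Fin 7 → Bool := fun i => decide (x i = y i)

lemma agr_comm (x y : Fin 7 → Fin m) : agr x y = agr y x := by
  funext i; simp [agr, eq_comm]

/-- the graph -/
def gr (m : ℕ) : SimpleGraph (Fin 7 → Fin m) where
  Adj x y := gval (agr x y) = 1
  symm := ⟨by intro x y h; rw [agr_comm]; exact h⟩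
  loopless := ⟨by
    intro x h
    have : agr x x = fun _ => true := by funext i; simp [agr]
    rw [this, gval_top] at h
    exact absurd h (by norm_num)⟩

instance (m : ℕ) : DecidableRel (gr m).Adj := fun x y => by
  unfold gr; exact inferInstanceAs (Decidable (gval (agr x y) = 1))

/-- indicator of agreement on `J` -/
def ind (J : List (Fin 7)) (x y : Fin 7 → Fin m) : ℝ := if J.all (agr x y) then 1 else 0

lemma cnt_cast (l : List (List (Fin 7))) (x y : Fin 7 → Fin m) :
    ((cnt l (agr x y) : ℤ) : ℝ) = (l.map fun J => ind J x y).sum := by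
  induction l with
  | nil => simp [cnt]
  | cons J l ih =>
    have : cnt (J :: l) (agr x y) = (if J.all (agr x y) then (1 : ℤ) else 0) + cnt l (agr x y) := by
      simp [cnt]
    rw [this, List.map_cons, List.sum_cons, ← ih]
    push_cast
    rfl

lemma adj_eq (x y : Fin 7 → Fin m) :
    (gr m).adjMatrix ℝ x y = (pos.map fun J => ind J x y).sum - (neg.map fun J => ind J x y).sum := by
  rw [← cnt_cast, ← cnt_cast, SimpleGraph.adjMatrix_apply]
  have h : ((cnt pos (agr x y) : ℤ) : ℝ) - (cnt neg (agr x y) : ℤ) = ((gval (agr x y) : ℤ) : ℝ) := by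
    unfold gval; push_cast; ring
  rw [h]
  have hadj : (gr m).Adj x y ↔ gval (agr x y) = 1 := Iff.rfl
  rcases gval01 (agr x y) with h0 | h1
  · rw [if_neg (by rw [hadj, h0]; norm_num), h0]; norm_num
  · rw [if_pos (by rw [hadj, h1]), h1]; norm_num

/-- the quadratic form of the agreement matrix -/
def Q (J : List (Fin 7)) (v : (Fin 7 → Fin m) → ℝ) : ℝ :=
  ∑ x, ∑ y, v x * v y * ind J x y

/-- partial sums over the classes of agreement on `J` -/
def cls (J : List (Fin 7)) (v : (Fin 7 → Fin m) → ℝ) (a : {i // i ∈ J} → Fin m) : ℝ :=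
  ∑ x, if (fun i : {i // i ∈ J} => x i.1) = a then v x else 0

lemma Q_eq (J : List (Fin 7)) (v : (Fin 7 → Fin m) → ℝ) :
    Q J v = ∑ a, (cls J v a) ^ 2 := by
  unfold Q cls
  simp only [sq, sum_mul_sum]
  rw [sum_comm' (t' := univ) (s' := fun _ => univ) (by simp)]
  rw [show (∑ a : {i // i ∈ J} → Fin m, ∑ x : Fin 7 → Fin m, ∑ y : Fin 7 → Fin m,
      (if (fun i : {i // i ∈ J} => x i.1) = a then v x else 0) *
        (if (fun i : {i // i ∈ J} => y i.1) = a then v y else 0)) =
      ∑ x : Fin 7 → Fin m, ∑ y : Fin 7 → Fin m, ∑ a : {i // i ∈ J} → Fin m,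
      (if (fun i : {i // i ∈ J} => x i.1) = a then v x else 0) *
        (if (fun i : {i // i ∈ J} => y i.1) = a then v y else 0) by
    rw [sum_comm]
    refine sum_congr rfl fun x _ => ?_
    rw [sum_comm]]
  rw [sum_comm]
  refine sum_congr rfl fun x _ => sum_congr rfl fun y _ => ?_
  have h : ∀ a : {i // i ∈ J} → Fin m,
      (if (fun i : {i // i ∈ J} => x i.1) = a then v x else 0) *
        (if (fun i : {i // i ∈ J} => y i.1) = a then v y else 0) =
      if (fun i : {i // i ∈ J} => x i.1) = a then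
        (if (fun i : {i // i ∈ J} => y i.1) = (fun i : {i // i ∈ J} => x i.1) then v x * v y else 0)
        else 0 := by
    intro a
    by_cases hx : (fun i : {i // i ∈ J} => x i.1) = a
    · subst hx
      simp
    · simp [hx]
  simp only [h, sum_ite_eq, mem_univ, if_true]
  unfold ind
  have h2 : (J.all (agr x y) = true) ↔
      (fun i : {i // i ∈ J} => y i.1) = (fun i : {i // i ∈ J} => x i.1) := by
    rw [List.all_eq_true]
    constructor
    · intro H
      funext i
      have := H i.1 i.2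
      simp only [agr, decide_eq_true_eq] at this
      exact this.symm
    · intro H i hi
      have := congrFun H ⟨i, hi⟩
      simp only [agr, decide_eq_true_eq]
      exact this.symm
  by_cases hh : (fun i : {i // i ∈ J} => y i.1) = (fun i : {i // i ∈ J} => x i.1)
  · rw [if_pos (h2.mpr hh), if_pos hh, mul_one]
  · rw [if_neg (fun H => hh (h2.mp H)), if_neg hh, mul_zero]

lemma Q_nonneg (J : List (Fin 7)) (v : (Fin 7 → Fin m) → ℝ) : 0 ≤ Q J v := by
  rw [Q_eq]; exact sum_nonneg fun a _ => sq_nonneg _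

lemma list_sum_comm (l : List (List (Fin 7))) (v : (Fin 7 → Fin m) → ℝ) :
    ∑ x, ∑ y, v x * v y * (l.map fun J => ind J x y).sum = (l.map fun J => Q J v).sum := by
  induction l with
  | nil => simp
  | cons J l ih =>
    simp only [List.map_cons, List.sum_cons, mul_add, sum_add_distrib, ih]
    rfl

lemma quad_adj (v : (Fin 7 → Fin m) → ℝ) :
    v ⬝ᵥ ((gr m).adjMatrix ℝ *ᵥ v) = (pos.map fun J => Q J v).sum - (neg.map fun J => Q J v).sum := by
  rw [← list_sum_comm, ← list_sum_comm, ← sum_sub_distrib]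
  unfold dotProduct
  refine sum_congr rfl fun x _ => ?_
  rw [mulVec, dotProduct, mul_sum, ← sum_sub_distrib]
  refine sum_congr rfl fun y _ => ?_
  rw [adj_eq]
  ring

/-- index type of the constraints -/
abbrev Cst (m : ℕ) : Type := Σ t : Fin neg.length, ({i // i ∈ neg.get t} → Fin m)

/-- the constraint map -/
noncomputable def cmap (m : ℕ) : ((Fin 7 → Fin m) → ℝ) →ₗ[ℝ] (Cst m → ℝ) where
  toFun v := fun c => cls (neg.get c.1) v c.2
  map_add' v w := by
    funext c
    simp only [cls, Pi.add_apply]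
    rw [← sum_add_distrib]
    refine sum_congr rfl fun x _ => ?_
    split_ifs <;> simp
  map_smul' r v := by
    funext c
    simp only [cls, Pi.smul_apply, smul_eq_mul, RingHom.id_apply, mul_sum]
    refine sum_congr rfl fun x _ => ?_
    split_ifs <;> simp

lemma neg_card : ∀ t : Fin neg.length, Fintype.card {i // i ∈ neg.get t} ≤ 3 := by
  decide +kernel

lemma card_Cst (hm : 1 ≤ m) : Fintype.card (Cst m) ≤ 34 * m ^ 3 := by
  rw [Fintype.card_sigma]
  calc ∑ t : Fin neg.length, Fintype.card ({i // i ∈ neg.get t} → Fin m)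
      ≤ ∑ _t : Fin neg.length, m ^ 3 := by
        refine sum_le_sum fun t _ => ?_
        rw [Fintype.card_fun, Fintype.card_fin]
        exact Nat.pow_le_pow_right hm (neg_card t)
    _ = 34 * m ^ 3 := by
        rw [sum_const, card_univ, Fintype.card_fin, smul_eq_mul]
        rfl

lemma list_le (l : List (List (Fin 7))) (v : (Fin 7 → Fin m) → ℝ) (J : List (Fin 7)) (hJ : J ∈ l) :
    Q J v ≤ (l.map fun J => Q J v).sum := by
  refine List.single_le_sum ?_ _ (List.mem_map_of_mem hJ)
  intro a ha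
  obtain ⟨K, _, rfl⟩ := List.mem_map.mp ha
  exact Q_nonneg K v

lemma Q_full (v : (Fin 7 → Fin m) → ℝ) (hv : v ≠ 0) : 0 < Q [0, 1, 2, 3, 4, 5, 6] v := by
  obtain ⟨x, hx⟩ := Function.ne_iff.mp hv
  rw [Q_eq]
  let a : {i // i ∈ ([0, 1, 2, 3, 4, 5, 6] : List (Fin 7))} → Fin m := fun i => x i.1
  have hmem : ∀ i : Fin 7, i ∈ ([0, 1, 2, 3, 4, 5, 6] : List (Fin 7)) := by decide
  have hc : cls [0, 1, 2, 3, 4, 5, 6] v a = v x := by
    unfold cls
    rw [sum_eq_single x]
    · simp [a]
    · intro y _ hy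
      rw [if_neg]
      intro h
      apply hy
      funext i
      exact congrFun h ⟨i, hmem i⟩
    · simp
  have h1 : (cls [0, 1, 2, 3, 4, 5, 6] v a) ^ 2 ≤ ∑ b, (cls [0, 1, 2, 3, 4, 5, 6] v b) ^ 2 :=
    single_le_sum (f := fun b => (cls [0, 1, 2, 3, 4, 5, 6] v b) ^ 2)
      (fun b _ => sq_nonneg _) (mem_univ a)
  rw [hc] at h1
  have h2 : 0 < (v x) ^ 2 := by
    have : v x ≠ 0 := by simpa using hx
    positivity
  linarith

theorem pos_def (v : (Fin 7 → Fin m) → ℝ) (hv : v ∈ LinearMap.ker (cmap m)) (h0 : v ≠ 0) :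
    0 < v ⬝ᵥ ((gr m).adjMatrix ℝ *ᵥ v) := by
  rw [quad_adj]
  have hneg : (neg.map fun J => Q J v).sum = 0 := by
    apply List.sum_eq_zero
    intro a ha
    obtain ⟨J, hJ, rfl⟩ := List.mem_map.mp ha
    obtain ⟨t, rfl⟩ := List.get_of_mem hJ
    rw [Q_eq]
    refine sum_eq_zero fun b _ => ?_
    have := congrFun (LinearMap.mem_ker.mp hv) ⟨t, b⟩
    have h2 : cls (neg.get t) v b = 0 := this
    rw [h2]; ring
  rw [hneg, sub_zero]
  exact lt_of_lt_of_le (Q_full v h0) (list_le pos v _ (by decide))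

/-- the adjacency matrix is Hermitian -/
lemma herm {V : Type*} [Fintype V] [DecidableEq V] (G : SimpleGraph V) [DecidableRel G.Adj] :
    (G.adjMatrix ℝ).IsHermitian := by
  rw [Matrix.IsHermitian, conjTranspose_eq_transpose_of_trivial]
  exact G.transpose_adjMatrix

theorem cube_bounds (hm : 1 ≤ m) :
    nneg (herm (gr m)) ≤ 34 * m ^ 3 ∧ m ^ 7 ≤ npos (herm (gr m)) + 34 * m ^ 3 := by
  obtain ⟨h1, h2⟩ := inertia (herm (gr m)) (LinearMap.ker (cmap m)) (fun v hv h0 => pos_def v hv h0)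
  have hrk := LinearMap.finrank_range_add_finrank_ker (cmap m)
  have hrange : Module.finrank ℝ (LinearMap.range (cmap m)) ≤ 34 * m ^ 3 := by
    refine (Submodule.finrank_le _).trans ?_
    rw [Module.finrank_fintype_fun_eq_card]
    exact card_Cst hm
  rw [Module.finrank_fintype_fun_eq_card] at hrk
  have hcard : Fintype.card (Fin 7 → Fin m) = m ^ 7 := by
    rw [Fintype.card_fun, Fintype.card_fin, Fintype.card_fin]
  rw [hcard] at hrk h2
  omega

end Pool.Agent.R312I
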