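import Mathlib

/-!
Inertia of real symmetric matrices: positive definiteness on a subspace.
-/

namespace Pool.Agent.R312I

open Matrix Finset

variable {n : Type*} [Fintype n] [DecidableEq n]

/-- number of positive eigenvalues of a real symmetric matrix -/
noncomputable def npos {A : Matrix n n ℝ} (hA : A.IsHermitian) : ℕ :=
  (univ.filter fun i => 0 < hA.eigenvalues i).card

/-- number of negative eigenvalues of a real symmetric matrix -/
noncomputable def nneg {A : Matrix n n ℝ} (hA : A.IsHermitian) : ℕ :=
  (univ.filter fun i => hA.eigenvalues i < 0).card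

lemma quad_eq {A : Matrix n n ℝ} (hA : A.IsHermitian) (v : n → ℝ) :
    v ⬝ᵥ (A *ᵥ v) = ∑ i, hA.eigenvalues i *
      (((star (hA.eigenvectorUnitary : Matrix n n ℝ)) *ᵥ v) i) ^ 2 := by
  set U : Matrix n n ℝ := (hA.eigenvectorUnitary : Matrix n n ℝ) with hU
  have hspec : A = U * diagonal hA.eigenvalues * star U := by
    have := hA.spectral_theorem
    simpa [Unitary.conjStarAlgAut_apply, hU, Function.comp_def] using this
  have h1 : A *ᵥ v = U *ᵥ (diagonal hA.eigenvalues *ᵥ (star U *ᵥ v)) := by
    conv_lhs => rw [hspec]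
    rw [mulVec_mulVec, mulVec_mulVec]
  rw [h1, dotProduct_mulVec]
  have h2 : v ᵥ* U = star U *ᵥ v := by
    rw [star_eq_conjTranspose, conjTranspose_eq_transpose_of_trivial, mulVec_transpose]
  rw [h2]
  simp only [dotProduct, mulVec_diagonal]
  refine sum_congr rfl fun i _ => ?_
  ring

theorem inertia {A : Matrix n n ℝ} (hA : A.IsHermitian) (V : Submodule ℝ (n → ℝ))
    (hV : ∀ v ∈ V, v ≠ 0 → 0 < v ⬝ᵥ (A *ᵥ v)) :
    Module.finrank ℝ V ≤ npos hA ∧ nneg hA + Module.finrank ℝ V ≤ Fintype.card n := by
  set U : Matrix n n ℝ := (hA.eigenvectorUnitary : Matrix n n ℝ) with hU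
  let P : Finset n := univ.filter fun i => 0 < hA.eigenvalues i
  let L : V →ₗ[ℝ] (P → ℝ) :=
    ((LinearMap.funLeft ℝ ℝ (fun i : P => (i : n))).comp (Matrix.mulVecLin (star U))).comp
      V.subtype
  have hinj : Function.Injective L := by
    rw [← LinearMap.ker_eq_bot, LinearMap.ker_eq_bot']
    intro v hv
    by_contra hne
    have hpos := hV v v.2 (fun h => hne (Subtype.ext h))
    rw [quad_eq hA] at hpos
    have : ∑ i, hA.eigenvalues i * ((star U *ᵥ (v : n → ℝ)) i) ^ 2 ≤ 0 := by
      refine sum_nonpos fun i _ => ?_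
      by_cases hi : 0 < hA.eigenvalues i
      · have h0 : (star U *ᵥ (v : n → ℝ)) i = 0 := by
          have := congrFun hv ⟨i, by simp [P, hi]⟩
          simpa [L, LinearMap.funLeft] using this
        rw [h0]; simp
      · push Not at hi
        exact mul_nonpos_of_nonpos_of_nonneg hi (sq_nonneg _)
    exact absurd hpos (not_lt.mpr this)
  have h1 : Module.finrank ℝ V ≤ npos hA := by
    have := LinearMap.finrank_le_finrank_of_injective hinj
    rw [Module.finrank_fintype_fun_eq_card, Fintype.card_coe] at this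
    exact this
  refine ⟨h1, ?_⟩
  have h2 : nneg hA + npos hA ≤ Fintype.card n := by
    unfold nneg npos
    rw [← card_union_of_disjoint]
    · exact card_le_univ _
    · rw [disjoint_filter]
      intro i _ h
      exact not_lt.mpr h.le
  omega

end Pool.Agent.R312I
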